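import Pool.Agent.H66.ER2.Lib
import Pool.Agent.H13.ER2.ASD

/-!
# MP_816b90_co: corrected row (HTR), the neighbours of a vertex on a cycle, and row (ASD)
-/

set_option autoImplicit false

open Pool.Agent.H48.ER Pool.Agent.H52.ER2 Pool.Agent.H66.ER2

namespace Pool.Agent.H67.ER2

/-- (HTR) the neighbours of a vertex on a cycle, with the cases of the only neighbour `a2` or
`a3`. -/
def T_HTR' : Prop := ∀ (V : Type) (G : SimpleGraph V) (n m : ℕ) (c a2 b2 a3 b3 : V) (P Q : Set V),
  Cyc G n m a2 b2 a3 b3 P Q → c ∉ P ∪ Q → (∃ w ∈ P ∪ Q, G.Adj c w) →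
  (∀ w ∈ P ∪ Q, G.Adj c w ↔ w = a2) ∨ (∀ w ∈ P ∪ Q, G.Adj c w ↔ w = a3) ∨
  (∃ g, HOne G n m c a2 a3 g P Q) ∨
  (∃ (i j : ℕ) (g g' : V) (R1 R2 : Set V), HTwo G n m i j c a2 b2 a3 b3 g g' R1 R2 P Q) ∨
  ∃ g g', HFar G c a2 a3 g g' P Q

/-- the first and the last index with a property -/
theorem fstLst (N : ℕ) (p : ℕ → Prop) (h : ∃ k, k ≤ N ∧ p k) :
    ∃ i j, i ≤ j ∧ j ≤ N ∧ p i ∧ p j ∧ (∀ k, k < i → ¬ p k) ∧ ∀ k, j < k → k ≤ N → ¬ p k := by
  classical
  obtain ⟨k0, hk0, hp0⟩ := h
  have hex : ∃ k, p k := ⟨k0, hp0⟩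
  refine ⟨Nat.find hex, Nat.findGreatest p N, ?_, Nat.findGreatest_le N, Nat.find_spec hex,
    Nat.findGreatest_spec hk0 hp0, fun k hk => Nat.find_min hex hk, fun k h1 h2 hp => ?_⟩
  · exact (Nat.find_min' hex hp0).trans (Nat.le_findGreatest hk0 hp0)
  · exact Nat.findGreatest_is_greatest h1 h2 hp

theorem pf_HTR' : T_HTR' := by
  intro V G n m c a2 b2 a3 b3 P Q hC _ hs
  obtain ⟨h, h0, hn, hn1, hN, hP, hQ, gi, ga⟩ := hC.fn
  have np : 1 ≤ n := hC.hn.pos
  have mp : 1 ≤ m := hC.hm.pos
  have hPQ : P ∪ Q = seg h 0 (n + m + 1) := by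
    rw [hP, hQ]; ext v; constructor
    · rintro (⟨k, h1, h2, rfl⟩ | ⟨k, h1, h2, rfl⟩)
      · exact ⟨k, by omega, by omega, rfl⟩
      · exact ⟨k, by omega, by omega, rfl⟩
    · rintro ⟨k, h1, h2, rfl⟩
      by_cases hk : k ≤ n
      · exact Or.inl ⟨k, by omega, by omega, rfl⟩
      · exact Or.inr ⟨k, by omega, by omega, rfl⟩
  obtain ⟨i, i', hii, hi', pi, pi', lo, hi⟩ := fstLst (n + m + 1) (fun k => G.Adj c (h k)) (by
    obtain ⟨w, hw, e⟩ := hs
    rw [hPQ] at hw
    obtain ⟨k, _, h2, rfl⟩ := hw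
    exact ⟨k, h2, e⟩)
  -- the two end segments
  have s1 : i ≠ n + m + 1 → IP G i a2 (h i) (seg h 0 i) := by
    intro hne
    have := cyc_seg gi ga (Nat.zero_le i) (by omega) (by omega)
    rw [h0] at this
    simpa using this
  have s2 : i' ≠ 0 → IP G (n + m + 1 - i') a3 (h i') (seg h i' (n + m + 1)) := by
    intro hne
    have := (cyc_seg gi ga hi' le_rfl (by omega)).rev
    rw [hN] at this
    exact this
  by_cases e0 : i' = i
  · subst e0
    have nb : ∀ w ∈ P ∪ Q, G.Adj c w ↔ w = h i' := by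
      intro w hw
      rw [hPQ] at hw
      obtain ⟨k, _, h2, rfl⟩ := hw
      constructor
      · intro e
        rcases lt_trichotomy k i' with h3 | h3 | h3
        · exact absurd e (lo k h3)
        · rw [h3]
        · exact absurd e (hi k h3 h2)
      · intro e
        rw [e]; exact pi
    by_cases z1 : i' = 0
    · subst z1
      rw [h0] at nb
      exact Or.inl nb
    by_cases z2 : i' = n + m + 1
    · rw [z2, hN] at nb
      exact Or.inr (Or.inl nb)
    refine Or.inr (Or.inr (Or.inl ⟨h i', ?_, nb, i', n + m + 1 - i', seg h 0 i',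
      seg h i' (n + m + 1), s1 z2, s2 z1, by omega, ?_, ?_, ?_⟩))
    · rw [hPQ]; exact mem_seg (Nat.zero_le _) hi'
    · rw [hPQ]; ext v; constructor
      · rintro (⟨k, h1, h2, rfl⟩ | ⟨k, h1, h2, rfl⟩)
        · exact ⟨k, by omega, by omega, rfl⟩
        · exact ⟨k, by omega, by omega, rfl⟩
      · rintro ⟨k, h1, h2, rfl⟩
        by_cases hk : k ≤ i'
        · exact Or.inl ⟨k, by omega, by omega, rfl⟩
        · exact Or.inr ⟨k, by omega, by omega, rfl⟩
    · ext v; constructor
      · rintro ⟨⟨k, h1, h2, rfl⟩, ⟨k', h3, h4, e⟩⟩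
        have := gi _ _ (by omega) (by omega) e
        have e2 : k = i' := by omega
        rw [e2]; rfl
      · intro hv
        rw [Set.mem_singleton_iff.1 hv]
        exact ⟨⟨i', by omega, le_rfl, rfl⟩, ⟨i', le_rfl, by omega, rfl⟩⟩
    · rintro u ⟨k, h1, h2, rfl⟩ w ⟨k', h3, h4, rfl⟩ hu hw
      have k1 : k ≠ i' := fun e => hu (by rw [e])
      have k2 : k' ≠ i' := fun e => hw (by rw [e])
      rw [ga k k' (by omega) (by omega)]
      constructor
      · intro e
        have e1 : k = 0 := by omega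
        have e2 : k' = n + m + 1 := by omega
        rw [e1, e2, h0, hN]
        exact ⟨rfl, rfl⟩
      · rintro ⟨e1, e2⟩
        have e3 := gi k 0 (by omega) (by omega) (e1.trans h0.symm)
        have e4 := gi k' (n + m + 1) (by omega) (by omega) (e2.trans hN.symm)
        omega
  by_cases e1 : i' = i + 1
  · subst e1
    refine Or.inr (Or.inr (Or.inr (Or.inl ⟨i, n + m + 1 - (i + 1), h i, h (i + 1), seg h 0 i,
      seg h (i + 1) (n + m + 1), ⟨s1 (by omega), s2 (by omega), by omega, ?_, ?_, ?_, ?_, ?_⟩⟩)))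
    · rw [hPQ]; ext v; constructor
      · rintro (⟨k, h1, h2, rfl⟩ | ⟨k, h1, h2, rfl⟩)
        · exact ⟨k, by omega, by omega, rfl⟩
        · exact ⟨k, by omega, by omega, rfl⟩
      · rintro ⟨k, h1, h2, rfl⟩
        by_cases hk : k ≤ i
        · exact Or.inl ⟨k, by omega, by omega, rfl⟩
        · exact Or.inr ⟨k, by omega, by omega, rfl⟩
    · rw [Set.disjoint_left]
      rintro v ⟨k, h1, h2, rfl⟩ ⟨k', h3, h4, e⟩
      have := gi _ _ (by omega) (by omega) e
      omega
    · rintro u ⟨k, h1, h2, rfl⟩ w ⟨k', h3, h4, rfl⟩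
      rw [ga k k' (by omega) (by omega)]
      constructor
      · intro e
        by_cases hk : k = i ∧ k' = i + 1
        · exact Or.inr ⟨by rw [hk.1], by rw [hk.2]⟩
        · have e1 : k = 0 := by omega
          have e2 : k' = n + m + 1 := by omega
          rw [e1, e2, h0, hN]
          exact Or.inl ⟨rfl, rfl⟩
      · rintro (⟨e1, e2⟩ | ⟨e1, e2⟩)
        · have e3 := gi k 0 (by omega) (by omega) (e1.trans h0.symm)
          have e4 := gi k' (n + m + 1) (by omega) (by omega) (e2.trans hN.symm)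
          omega
        · have e3 := gi k i (by omega) (by omega) e1
          have e4 := gi k' (i + 1) (by omega) (by omega) e2
          omega
    · intro w hw
      rw [hPQ] at hw
      obtain ⟨k, _, h2, rfl⟩ := hw
      constructor
      · intro e
        rcases lt_trichotomy k i with h3 | h3 | h3
        · exact absurd e (lo k h3)
        · rw [h3]; exact Or.inl rfl
        · by_cases h4 : k = i + 1
          · rw [h4]; exact Or.inr rfl
          · exact absurd e (hi k (by omega) h2)
      · rintro (e | e)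
        · rw [e]; exact pi
        · rw [e]; exact pi'
    · rcases lt_trichotomy i n with h3 | h3 | h3
      · refine Or.inr (Or.inl ⟨n - (i + 1), seg h (i + 1) n, ?_, ?_, ?_, ?_, by omega,
          by omega⟩)
        · have := cyc_seg gi ga (i := i + 1) (j := n) (by omega) (by omega) (by omega)
          rw [hn] at this
          exact this
        · rw [hP]; ext v; constructor
          · rintro (⟨k, h1, h2, rfl⟩ | ⟨k, h1, h2, rfl⟩)
            · exact ⟨k, by omega, by omega, rfl⟩
            · exact ⟨k, by omega, by omega, rfl⟩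
          · rintro ⟨k, h1, h2, rfl⟩
            by_cases hk : k ≤ i
            · exact Or.inl ⟨k, by omega, by omega, rfl⟩
            · exact Or.inr ⟨k, by omega, by omega, rfl⟩
        · rw [Set.disjoint_left]
          rintro v ⟨k, h1, h2, rfl⟩ ⟨k', h3, h4, e⟩
          have := gi _ _ (by omega) (by omega) e
          omega
        · rw [hQ]; ext v; constructor
          · rintro ⟨k, h1, h2, rfl⟩
            by_cases hk : k ≤ n
            · exact Or.inr ⟨k, by omega, by omega, rfl⟩
            · exact Or.inl ⟨k, by omega, by omega, rfl⟩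
          · rintro (⟨k, h1, h2, rfl⟩ | ⟨k, h1, h2, rfl⟩)
            · exact ⟨k, by omega, by omega, rfl⟩
            · exact ⟨k, by omega, by omega, rfl⟩
      · subst h3
        exact Or.inl ⟨hP.symm, hQ.symm, hn, hn1⟩
      · refine Or.inr (Or.inr ⟨i - (n + 1), seg h (n + 1) i, ?_, ?_, ?_, ?_, by omega,
          by omega⟩)
        · have := (cyc_seg gi ga (i := n + 1) (j := i) (by omega) (by omega) (by omega)).rev
          rw [hn1] at this
          exact this
        · rw [hQ]; ext v; constructor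
          · rintro (⟨k, h1, h2, rfl⟩ | ⟨k, h1, h2, rfl⟩)
            · exact ⟨k, by omega, by omega, rfl⟩
            · exact ⟨k, by omega, by omega, rfl⟩
          · rintro ⟨k, h1, h2, rfl⟩
            by_cases hk : k ≤ i
            · exact Or.inr ⟨k, by omega, by omega, rfl⟩
            · exact Or.inl ⟨k, by omega, by omega, rfl⟩
        · rw [Set.disjoint_left]
          rintro v ⟨k, h1, h2, rfl⟩ ⟨k', h3, h4, e⟩
          have := gi _ _ (by omega) (by omega) e
          omega
        · rw [hP]; ext v; constructor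
          · rintro ⟨k, h1, h2, rfl⟩
            by_cases hk : k ≤ n
            · exact Or.inl ⟨k, by omega, by omega, rfl⟩
            · exact Or.inr ⟨k, by omega, by omega, rfl⟩
          · rintro (⟨k, h1, h2, rfl⟩ | ⟨k, h1, h2, rfl⟩)
            · exact ⟨k, by omega, by omega, rfl⟩
            · exact ⟨k, by omega, by omega, rfl⟩
  · refine Or.inr (Or.inr (Or.inr (Or.inr ⟨h i, h i', i, n + m + 1 - i', seg h 0 i,
      seg h i' (n + m + 1), s1 (by omega), s2 (by omega), ?_, ?_, ?_, ?_, ?_, ?_⟩)))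
    · rw [hPQ]
      rintro v ⟨k, h1, h2, rfl⟩
      exact ⟨k, by omega, by omega, rfl⟩
    · rw [hPQ]
      rintro v ⟨k, h1, h2, rfl⟩
      exact ⟨k, by omega, by omega, rfl⟩
    · rw [Set.disjoint_left]
      rintro v ⟨k, h1, h2, rfl⟩ ⟨k', h3, h4, e⟩
      have := gi _ _ (by omega) (by omega) e
      omega
    · rintro u ⟨k, h1, h2, rfl⟩ w ⟨k', h3, h4, rfl⟩
      rw [ga k k' (by omega) (by omega)]
      constructor
      · intro e
        have e1 : k = 0 := by omega
        have e2 : k' = n + m + 1 := by omega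
        rw [e1, e2, h0, hN]
        exact ⟨rfl, rfl⟩
      · rintro ⟨e1, e2⟩
        have e3 := gi k 0 (by omega) (by omega) (e1.trans h0.symm)
        have e4 := gi k' (n + m + 1) (by omega) (by omega) (e2.trans hN.symm)
        omega
    · rintro w ⟨k, h1, h2, rfl⟩
      constructor
      · intro e
        by_cases hk : k = i
        · rw [hk]
        · exact absurd e (lo k (by omega))
      · intro e
        rw [e]; exact pi
    · rintro w ⟨k, h1, h2, rfl⟩
      constructor
      · intro e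
        by_cases hk : k = i'
        · rw [hk]
        · exact absurd e (hi k (by omega) (by omega))
      · intro e
        rw [e]; exact pi'

/-- (ASD) attachments of the end of such a path (proof of `Pool.Agent.H13.ER2` with the corrected
row). -/
theorem pf_ASD (hPYR : T_PYR) : T_ASD := by
  intro V G l n m a1 c a2 b2 a3 b3 D P Q hG h
  have hcD : c ∈ D := h.ipD.right_mem
  have ha1D : a1 ∈ D := h.ipD.left_mem
  have ha1c : a1 ≠ c := h.ipD.ne h.hl
  have hcPQ : c ∉ P ∪ Q := fun e => Set.disjoint_left.1 h.dis hcD e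
  have ha2 : a2 ∈ P ∪ Q := Or.inl h.cy.ipP.left_mem
  have ha3 : a3 ∈ P ∪ Q := Or.inr h.cy.ipQ.left_mem
  rcases pf_HTR' V G n m c a2 b2 a3 b3 P Q h.cy hcPQ h.see with hx | hx |
    ⟨g, hg, hc, i, j, R1, R2, p1, p2, hij, hun, hint, hadj⟩ | h2 |
    ⟨g, g', i, j, R1, R2, p1, p2, s1, s2, hdis, hadj, hc1, hc2⟩
  · exact Or.inl hx
  · exact Or.inr (Or.inl hx)
  · by_cases e2 : g = a2
    · subst e2
      exact Or.inl hc
    by_cases e3 : g = a3
    · subst e3
      exact Or.inr (Or.inl hc)
    exfalso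
    have hgD : g ∉ D := fun e => Set.disjoint_left.1 h.dis e hg
    have i1 : 1 ≤ i := by
      rcases Nat.eq_zero_or_pos i with e | e
      · subst e
        exact absurd p1.eq_of_zero.1.symm e2
      · exact e
    have j1 : 1 ≤ j := by
      rcases Nat.eq_zero_or_pos j with e | e
      · subst e
        exact absurd p2.eq_of_zero.1.symm e3
      · exact e
    have n1 : 1 ≤ n := h.cy.hn.pos
    have m1 : 1 ≤ m := h.cy.hm.pos
    have gD : ∀ w ∈ D, G.Adj g w ↔ w = c := by
      intro w hw
      constructor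
      · intro ha
        by_contra hne
        rcases (h.on w hw hne g hg ha.symm).2 with e | e
        · exact e2 e
        · exact e3 e
      · rintro rfl
        exact ((hc g hg).2 rfl).symm
    have pD : IP G (l + 1) g a1 (insert g D) := h.ipD.rev.cons hgD gD
    have sub1 : R1 ⊆ P ∪ Q := fun x hx => hun ▸ Or.inl hx
    have sub2 : R2 ⊆ P ∪ Q := fun x hx => hun ▸ Or.inr hx
    have key : ∀ u, u ∈ R1 → u ∈ R2 → u = g := by
      intro u hu1 hu2
      have : u ∈ R1 ∩ R2 := ⟨hu1, hu2⟩
      rw [hint] at this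
      exact this
    have hl := h.hl
    refine Pool.Agent.H13.ER2.pyr3 hPYR hG p1.rev p2.rev pD i1 j1 (by omega) (by omega) (by omega) (by omega)
      ?_ ?_ ?_
    · intro u hu v hv hug hvg
      refine ⟨fun e => hug (key u hu (e ▸ hv)), ?_⟩
      exact hadj u hu v hv hug hvg
    · intro u hu v hv hug hvg
      have hvD : v ∈ D := hv.resolve_left hvg
      refine ⟨fun e => Set.disjoint_left.1 h.dis hvD (e ▸ sub1 hu), ?_⟩
      constructor
      · intro ha
        by_cases hvc : v = c
        · subst hvc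
          exact absurd ((hc u (sub1 hu)).1 ha.symm) hug
        · obtain ⟨e1, e | e⟩ := h.on v hvD hvc u (sub1 hu) ha.symm
          · exact ⟨e, e1⟩
          · exact absurd (key u hu (e ▸ p2.left_mem)) hug
      · rintro ⟨rfl, rfl⟩
        exact h.a12.symm
    · intro u hu v hv hug hvg
      have hvD : v ∈ D := hv.resolve_left hvg
      refine ⟨fun e => Set.disjoint_left.1 h.dis hvD (e ▸ sub2 hu), ?_⟩
      constructor
      · intro ha
        by_cases hvc : v = c
        · subst hvc
          exact absurd ((hc u (sub2 hu)).1 ha.symm) hug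
        · obtain ⟨e1, e | e⟩ := h.on v hvD hvc u (sub2 hu) ha.symm
          · exact absurd (key u (e ▸ p1.left_mem) hu) hug
          · exact ⟨e, e1⟩
      · rintro ⟨rfl, rfl⟩
        exact h.a13.symm
  · exact Or.inr (Or.inr (Or.inr h2))
  · by_cases hT : Two G c a1 a2 a3
    · exact Or.inr (Or.inr (Or.inl hT))
    exfalso
    have c1 : c ∉ R1 := fun e => hcPQ (s1 e)
    have c2 : c ∉ R2 := fun e => hcPQ (s2 e)
    have q1 : IP G (i + 1) c a2 (insert c R1) := p1.rev.cons c1 hc1
    have q2 : IP G (j + 1) c a3 (insert c R2) := p2.rev.cons c2 hc2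
    have ca2 : i = 0 → G.Adj c a2 := fun e => q1.adj_iff.2 (by omega)
    have ca3 : j = 0 → G.Adj c a3 := fun e => q2.adj_iff.2 (by omega)
    have ca1 : l = 1 → G.Adj c a1 := fun e => h.ipD.rev.adj_iff.2 e
    refine Pool.Agent.H13.ER2.pyr3 hPYR hG q1 q2 h.ipD.rev (by omega) (by omega) h.hl ?_ ?_ ?_ ?_ ?_ ?_
    · rintro ⟨e1, e2⟩
      exact hT (Or.inr (Or.inr ⟨ca2 (by omega), ca3 (by omega)⟩))
    · rintro ⟨e1, e2⟩
      exact hT (Or.inl ⟨ca1 e2, ca2 (by omega)⟩)
    · rintro ⟨e1, e2⟩
      exact hT (Or.inr (Or.inl ⟨ca1 e2, ca3 (by omega)⟩))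
    · intro u hu v hv huc hvc
      have hu1 : u ∈ R1 := hu.resolve_left huc
      have hv1 : v ∈ R2 := hv.resolve_left hvc
      exact ⟨fun e => Set.disjoint_left.1 hdis hu1 (e ▸ hv1), hadj u hu1 v hv1⟩
    · intro u hu v hv huc hvc
      have hu1 : u ∈ R1 := hu.resolve_left huc
      refine ⟨fun e => Set.disjoint_left.1 h.dis hv (e ▸ s1 hu1), ?_⟩
      constructor
      · intro ha
        obtain ⟨e1, e | e⟩ := h.on v hv hvc u (s1 hu1) ha.symm
        · exact ⟨e, e1⟩
        · exact absurd (e ▸ p2.left_mem) (Set.disjoint_left.1 hdis hu1)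
      · rintro ⟨rfl, rfl⟩
        exact h.a12.symm
    · intro u hu v hv huc hvc
      have hu1 : u ∈ R2 := hu.resolve_left huc
      refine ⟨fun e => Set.disjoint_left.1 h.dis hv (e ▸ s2 hu1), ?_⟩
      constructor
      · intro ha
        obtain ⟨e1, e | e⟩ := h.on v hv hvc u (s2 hu1) ha.symm
        · exact absurd hu1 (Set.disjoint_left.1 hdis (e ▸ p1.left_mem))
        · exact ⟨e, e1⟩
      · rintro ⟨rfl, rfl⟩
        exact h.a13.symm

end Pool.Agent.H67.ER2
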