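import Pool.Agent.H66.ER2.Lib
import Pool.Agent.H13.ER2.ASD

/-!
# MP_816b90_co: row (VPR), a vertex which sees two corners of a prism
-/

set_option autoImplicit false

open Pool.Agent.H48.ER Pool.Agent.H52.ER2 Pool.Agent.H66.ER2

namespace Pool.Agent.H67.ER2

variable {V : Type} {G : SimpleGraph V}

/-- the neighbour of `v` nearest to the end of a path -/
theorem lastN {n : ℕ} {x y v : V} {R : Set V} (h : IP G n x y R) (hy : ¬ G.Adj v y)
    (hs : ∃ w ∈ R, G.Adj v w) : ∃ (d : ℕ) (w : V) (S : Set V), IP G d w y S ∧ S ⊆ R ∧ 1 ≤ d ∧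
      G.Adj v w ∧ (∀ u ∈ S, G.Adj v u ↔ u = w) ∧
      ((w = x ∧ S = R) ∨ (x ∉ S ∧ ((d + 1 = n ∧ R = insert x S ∧ G.Adj x w) ∨
        ∀ u ∈ S, ¬ G.Adj x u))) := by
  classical
  obtain ⟨g, hg, g0, gn, hR⟩ := IP.pf h
  obtain ⟨w0, hw0, e0⟩ := hs
  rw [hR] at hw0
  obtain ⟨k0, _, hk0, rfl⟩ := hw0
  have pk : G.Adj v (g (Nat.findGreatest (fun k => G.Adj v (g k)) n)) :=
    Nat.findGreatest_spec (P := fun k => G.Adj v (g k)) hk0 e0
  have hk : Nat.findGreatest (fun k => G.Adj v (g k)) n ≤ n := Nat.findGreatest_le n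
  have hgr : ∀ l, Nat.findGreatest (fun k => G.Adj v (g k)) n < l → l ≤ n → ¬ G.Adj v (g l) :=
    fun l h1 h2 => Nat.findGreatest_is_greatest h1 h2
  generalize Nat.findGreatest (fun k => G.Adj v (g k)) n = k at pk hk hgr
  have hkn : k ≠ n := by
    intro e
    rw [e, gn] at pk
    exact hy pk
  have hS : IP G (n - k) (g k) y (seg g k n) := by
    have := hg.seg hk le_rfl
    rw [gn] at this
    exact this
  refine ⟨n - k, g k, seg g k n, hS, ?_, by omega, pk, ?_, ?_⟩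
  · rw [hR]
    rintro u ⟨l, h1, h2, rfl⟩
    exact ⟨l, Nat.zero_le _, h2, rfl⟩
  · rintro u ⟨l, h1, h2, rfl⟩
    constructor
    · intro e
      by_cases hl : l = k
      · rw [hl]
      · exact absurd e (hgr l (by omega) h2)
    · intro e
      rw [e]; exact pk
  · by_cases hk0 : k = 0
    · left
      subst hk0
      exact ⟨g0, hR.symm⟩
    · right
      constructor
      · rintro ⟨l, h1, h2, e⟩
        have := hg.inj _ _ h2 (Nat.zero_le _) (e.trans g0.symm)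
        omega
      by_cases hk1 : k = 1
      · left
        subst hk1
        refine ⟨by omega, ?_, ?_⟩
        · rw [hR]; ext u; constructor
          · rintro ⟨l, h1, h2, rfl⟩
            by_cases hl : l = 0
            · left
              rw [hl, g0]
            · exact Or.inr ⟨l, by omega, h2, rfl⟩
          · rintro (e | ⟨l, h1, h2, rfl⟩)
            · exact ⟨0, le_rfl, by omega, by rw [e, g0]⟩
            · exact ⟨l, by omega, h2, rfl⟩
        · rw [← g0, hg.adj _ _ (by omega) (by omega)]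
          omega
      · right
        rintro u ⟨l, h1, h2, rfl⟩ e
        rw [← g0, hg.adj _ _ (by omega) (by omega)] at e
        omega

/-- a prism from three explicit paths -/
theorem mkPrism {a1 a2 a3 b1 b2 b3 : V} {n1 n2 n3 : ℕ} {P1 P2 P3 : Set V}
    (p1 : IP G n1 a1 b1 P1) (p2 : IP G n2 a2 b2 P2) (p3 : IP G n3 a3 b3 P3)
    (o1 : 1 ≤ n1) (o2 : 1 ≤ n2) (o3 : 1 ≤ n3)
    (x12 : ∀ u ∈ P1, ∀ w ∈ P2, u ≠ w ∧ (G.Adj u w ↔ (u = a1 ∧ w = a2) ∨ (u = b1 ∧ w = b2)))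
    (x13 : ∀ u ∈ P1, ∀ w ∈ P3, u ≠ w ∧ (G.Adj u w ↔ (u = a1 ∧ w = a3) ∨ (u = b1 ∧ w = b3)))
    (x23 : ∀ u ∈ P2, ∀ w ∈ P3, u ≠ w ∧ (G.Adj u w ↔ (u = a2 ∧ w = a3) ∨ (u = b2 ∧ w = b3))) :
    Prism G ![a1, a2, a3] ![b1, b2, b3] ![n1, n2, n3] ![P1, P2, P3] := by
  have ds : ∀ {X Y : Set V} {p q r s : V},
      (∀ u ∈ X, ∀ w ∈ Y, u ≠ w ∧ (G.Adj u w ↔ (u = p ∧ w = q) ∨ (u = r ∧ w = s))) →
      Disjoint X Y := by
    intro X Y p q r s h
    rw [Set.disjoint_left]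
    intro u hu hu'
    exact (h u hu u hu').1 rfl
  have sw : ∀ {X Y : Set V} {p q r s : V},
      (∀ u ∈ X, ∀ w ∈ Y, u ≠ w ∧ (G.Adj u w ↔ (u = p ∧ w = q) ∨ (u = r ∧ w = s))) →
      ∀ u ∈ Y, ∀ w ∈ X, (G.Adj u w ↔ (u = q ∧ w = p) ∨ (u = s ∧ w = r)) := by
    intro X Y p q r s h u hu w hw
    rw [G.adj_comm, (h w hw u hu).2]
    constructor
    · rintro (⟨e1, e2⟩ | ⟨e1, e2⟩)
      · exact Or.inl ⟨e2, e1⟩
      · exact Or.inr ⟨e2, e1⟩
    · rintro (⟨e1, e2⟩ | ⟨e1, e2⟩)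
      · exact Or.inl ⟨e2, e1⟩
      · exact Or.inr ⟨e2, e1⟩
  refine ⟨?_, ?_, ?_, ?_⟩
  · intro i
    fin_cases i
    · exact p1
    · exact p2
    · exact p3
  · intro i
    fin_cases i
    · exact o1
    · exact o2
    · exact o3
  · intro i j hij
    fin_cases i <;> fin_cases j
    · exact absurd rfl hij
    · exact ds x12
    · exact ds x13
    · exact (ds x12).symm
    · exact absurd rfl hij
    · exact ds x23
    · exact (ds x13).symm
    · exact (ds x23).symm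
    · exact absurd rfl hij
  · intro i j hij
    fin_cases i <;> fin_cases j
    · exact absurd rfl hij
    · exact fun u hu w hw => (x12 u hu w hw).2
    · exact fun u hu w hw => (x13 u hu w hw).2
    · exact sw x12
    · exact absurd rfl hij
    · exact fun u hu w hw => (x23 u hu w hw).2
    · exact sw x13
    · exact sw x23
    · exact absurd rfl hij

section

variable {a b : Fin 3 → V} {n : Fin 3 → ℕ} {P : Fin 3 → Set V} {v : V}

theorem ne_rung (hp : Prism G a b n P) {i j : Fin 3} (hij : i ≠ j) {u w : V} (hu : u ∈ P i)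
    (hw : w ∈ P j) : u ≠ w := fun e => Set.disjoint_left.1 (hp.dis i j hij) hu (e ▸ hw)

/-- two rungs seen only in the corners, the third one in another vertex -/
theorem two_full (hN : NCo G v) (hp : Prism G a b n P) (hv : v ∉ ver P) {i j k : Fin 3}
    (hij : i ≠ j) (hik : i ≠ k) (hjk : j ≠ k) (fi : ∀ w ∈ P i, G.Adj v w ↔ w = a i)
    (fj : ∀ w ∈ P j, G.Adj v w ↔ w = a j) {d : ℕ} {w : V} {S : Set V} (hS : IP G d w (b k) S)
    (sub : S ⊆ P k) (ha : a k ∉ S) (nb : ∀ u ∈ S, G.Adj v u ↔ u = w) : False := by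
  have vS : v ∉ S := fun e => hv ⟨k, sub e⟩
  have q : IP G (d + 1) v (b k) (insert v S) := hS.cons vS nb
  have cross : ∀ r : Fin 3, r ≠ k → (∀ w ∈ P r, G.Adj v w ↔ w = a r) →
      ∀ u ∈ insert v S, ∀ w ∈ P r, u ≠ w ∧ (G.Adj u w ↔ (u = v ∧ w = a r) ∨
        (u = b k ∧ w = b r)) := by
    intro r hr fr u hu w hw
    rcases hu with rfl | hu
    · refine ⟨fun e => hv ⟨r, e ▸ hw⟩, ?_⟩
      rw [fr w hw]
      constructor
      · intro e
        exact Or.inl ⟨rfl, e⟩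
      · rintro (⟨_, e⟩ | ⟨e, _⟩)
        · exact e
        · exact absurd (e ▸ hp.b_mem k : u ∈ P k) (fun h => hv ⟨k, h⟩)
    · refine ⟨ne_rung hp hr.symm (sub hu) hw, ?_⟩
      rw [hp.adj k r hr.symm u (sub hu) w hw]
      constructor
      · rintro (⟨e, _⟩ | e)
        · exact absurd (e ▸ hu) ha
        · exact Or.inr e
      · rintro (⟨e, _⟩ | e)
        · exact absurd (e ▸ hu) vS
        · exact Or.inr e
  have pr := mkPrism q (hp.ip i) (hp.ip j) (by omega) (hp.pos i) (hp.pos j)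
    (cross i hik fi) (cross j hjk fj) (fun u hu w hw => ⟨ne_rung hp hij hu hw,
      hp.adj i j hij u hu w hw⟩)
  exact (hN _ _ _ _ pr 0).1 rfl

/-- the pyramid with apex `v` -/
theorem pyr_v (hPYR : T_PYR) (hG : NOH G) (hp : Prism G a b n P) (hv : v ∉ ver P)
    {i j k : Fin 3} (hij : i ≠ j) (hik : i ≠ k) (hjk : j ≠ k) {d1 d2 d3 : ℕ} {w1 w2 w3 : V}
    {S1 S2 S3 : Set V} (h1 : IP G d1 w1 (b i) S1) (h2 : IP G d2 w2 (b j) S2)
    (h3 : IP G d3 w3 (b k) S3) (s1 : S1 ⊆ P i) (s2 : S2 ⊆ P j) (s3 : S3 ⊆ P k)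
    (e1 : 1 ≤ d1) (e2 : 1 ≤ d2) (e3 : 1 ≤ d3) (f1 : ∀ u ∈ S1, G.Adj v u ↔ u = w1)
    (f2 : ∀ u ∈ S2, G.Adj v u ↔ u = w2) (f3 : ∀ u ∈ S3, G.Adj v u ↔ u = w3)
    (n12 : ¬ (a i ∈ S1 ∧ a j ∈ S2)) (n13 : ¬ (a i ∈ S1 ∧ a k ∈ S3))
    (n23 : ¬ (a j ∈ S2 ∧ a k ∈ S3)) : False := by
  have cross : ∀ {r s : Fin 3} {X Y : Set V}, r ≠ s → X ⊆ P r → Y ⊆ P s →
      ¬ (a r ∈ X ∧ a s ∈ Y) → ∀ u ∈ insert v X, ∀ w ∈ insert v Y, u ≠ v → w ≠ v →
      u ≠ w ∧ (G.Adj u w ↔ u = b r ∧ w = b s) := by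
    intro r s X Y hrs sX sY hn u hu w hw huv hwv
    have hu' : u ∈ X := hu.resolve_left huv
    have hw' : w ∈ Y := hw.resolve_left hwv
    refine ⟨ne_rung hp hrs (sX hu') (sY hw'), ?_⟩
    rw [hp.adj r s hrs u (sX hu') w (sY hw')]
    constructor
    · rintro (⟨x1, x2⟩ | e)
      · exact absurd ⟨x1 ▸ hu', x2 ▸ hw'⟩ hn
      · exact e
    · exact Or.inr
  exact Pool.Agent.H13.ER2.pyr3 hPYR hG (h1.cons (fun e => hv ⟨i, s1 e⟩) f1)
    (h2.cons (fun e => hv ⟨j, s2 e⟩) f2) (h3.cons (fun e => hv ⟨k, s3 e⟩) f3) (by omega)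
    (by omega) (by omega) (by omega) (by omega) (by omega) (cross hij s1 s2 n12)
    (cross hik s1 s3 n13) (cross hjk s2 s3 n23)

/-- the pyramid with apex `a i` -/
theorem pyr_a (hPYR : T_PYR) (hG : NOH G) (hp : Prism G a b n P) (hv : v ∉ ver P)
    {i j k : Fin 3} (hij : i ≠ j) (hik : i ≠ k) (hjk : j ≠ k)
    (fi : ∀ w ∈ P i, G.Adj v w ↔ w = a i) (fk : ∀ w ∈ P k, ¬ G.Adj v w) {d : ℕ} {w : V}
    {S : Set V} (hS : IP G d w (b j) S) (sub : S ⊆ P j) (ha : a j ∉ S)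
    (nb : ∀ u ∈ S, G.Adj v u ↔ u = w) : False := by
  have vS : v ∉ S := fun e => hv ⟨j, sub e⟩
  have q : IP G (d + 1) v (b j) (insert v S) := hS.cons vS nb
  have aiv : a i ≠ v := fun e => hv ⟨i, e ▸ hp.a_mem i⟩
  have aiS : a i ∉ S := fun e => ne_rung hp hij (hp.a_mem i) (sub e) rfl
  have vai : G.Adj v (a i) := (fi _ (hp.a_mem i)).2 rfl
  have q2 : IP G (d + 1 + 1) (a i) (b j) (insert (a i) (insert v S)) := by
    refine q.cons ?_ ?_
    · rintro (e | e)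
      · exact aiv e
      · exact aiS e
    · rintro u (rfl | hu)
      · exact ⟨fun _ => rfl, fun _ => vai.symm⟩
      · rw [hp.adj i j hij _ (hp.a_mem i) u (sub hu)]
        constructor
        · rintro (⟨_, e⟩ | ⟨e, _⟩)
          · exact absurd (e ▸ hu) ha
          · exact absurd e (hp.a_ne_b i i)
        · intro e
          exact absurd (e ▸ hu) vS
  have q3 : IP G (n k + 1) (a i) (b k) (insert (a i) (P k)) := by
    refine (hp.ip k).cons (fun e => ne_rung hp hik (hp.a_mem i) e rfl) ?_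
    intro u hu
    rw [hp.adj i k hik _ (hp.a_mem i) u hu]
    constructor
    · rintro (⟨_, e⟩ | ⟨e, _⟩)
      · exact e
      · exact absurd e (hp.a_ne_b i i)
    · intro e
      exact Or.inl ⟨rfl, e⟩
  have pi := hp.pos i
  have pk := hp.pos k
  refine Pool.Agent.H13.ER2.pyr3 hPYR hG (hp.ip i) q2 q3 pi (by omega) (by omega) (by omega)
    (by omega) (by omega) ?_ ?_ ?_
  · intro u hu w' hw hu1 hw1
    rcases hw.resolve_left hw1 with rfl | hw2
    · refine ⟨fun e => hv ⟨i, e ▸ hu⟩, ?_⟩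
      constructor
      · intro e
        exact absurd ((fi u hu).1 e.symm) hu1
      · rintro ⟨_, e⟩
        exact absurd (show w' ∈ P j by rw [e]; exact hp.b_mem j) (fun h => hv ⟨j, h⟩)
    · refine ⟨ne_rung hp hij hu (sub hw2), ?_⟩
      rw [hp.adj i j hij u hu w' (sub hw2)]
      constructor
      · rintro (⟨e, _⟩ | e)
        · exact absurd e hu1
        · exact e
      · exact Or.inr
  · intro u hu w' hw hu1 hw1
    have hw2 := hw.resolve_left hw1
    refine ⟨ne_rung hp hik hu hw2, ?_⟩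
    rw [hp.adj i k hik u hu w' hw2]
    constructor
    · rintro (⟨e, _⟩ | e)
      · exact absurd e hu1
      · exact e
    · exact Or.inr
  · intro u hu w' hw hu1 hw1
    have hw2 := hw.resolve_left hw1
    rcases hu.resolve_left hu1 with rfl | hu2
    · refine ⟨fun e => hv ⟨k, e ▸ hw2⟩, ?_⟩
      constructor
      · intro e
        exact absurd e (fk w' hw2)
      · rintro ⟨e, _⟩
        exact absurd (show u ∈ P j by rw [e]; exact hp.b_mem j) (fun h => hv ⟨j, h⟩)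
    · refine ⟨ne_rung hp hjk (sub hu2) hw2, ?_⟩
      rw [hp.adj j k hjk u (sub hu2) w' hw2]
      constructor
      · rintro (⟨e, _⟩ | e)
        · exact absurd (e ▸ hu2) ha
        · exact e
      · exact Or.inr

/-- the pyramid with apex `v` through `a i` and `a k` -/
theorem pyr_b (hPYR : T_PYR) (hG : NOH G) (hp : Prism G a b n P) (hv : v ∉ ver P)
    {i j k : Fin 3} (hij : i ≠ j) (hik : i ≠ k) (hjk : j ≠ k) (vai : G.Adj v (a i))
    (fk : ∀ w ∈ P k, ¬ G.Adj v w) {d1 d2 : ℕ} {w1 w2 : V} {S1 S2 : Set V}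
    (h1 : IP G d1 w1 (b i) S1) (h2 : IP G d2 w2 (b j) S2) (s1 : S1 ⊆ P i) (s2 : S2 ⊆ P j)
    (e1 : 1 ≤ d1) (e2 : 1 ≤ d2) (f1 : ∀ u ∈ S1, G.Adj v u ↔ u = w1)
    (f2 : ∀ u ∈ S2, G.Adj v u ↔ u = w2) (n1 : a i ∉ S1) (n2 : a j ∉ S2)
    (far : ∀ u ∈ S1, ¬ G.Adj (a i) u) : False := by
  have q : IP G (n k + 1) (a i) (b k) (insert (a i) (P k)) := by
    refine (hp.ip k).cons (fun e => ne_rung hp hik (hp.a_mem i) e rfl) ?_
    intro u hu
    rw [hp.adj i k hik _ (hp.a_mem i) u hu]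
    constructor
    · rintro (⟨_, e⟩ | ⟨e, _⟩)
      · exact e
      · exact absurd e (hp.a_ne_b i i)
    · intro e
      exact Or.inl ⟨rfl, e⟩
  have q2 : IP G (n k + 1 + 1) v (b k) (insert v (insert (a i) (P k))) := by
    refine q.cons ?_ ?_
    · rintro (e | e)
      · exact hv ⟨i, by rw [e]; exact hp.a_mem i⟩
      · exact hv ⟨k, e⟩
    · rintro u (rfl | hu)
      · exact ⟨fun _ => rfl, fun _ => vai⟩
      · constructor
        · intro e
          exact absurd e (fk u hu)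
        · intro e
          exact absurd (e ▸ hu) (fun h => ne_rung hp hik (hp.a_mem i) h rfl)
  refine Pool.Agent.H13.ER2.pyr3 hPYR hG (h1.cons (fun e => hv ⟨i, s1 e⟩) f1)
    (h2.cons (fun e => hv ⟨j, s2 e⟩) f2) q2 (by omega) (by omega) (by omega) (by omega)
    (by omega) (by omega) ?_ ?_ ?_
  · intro u hu w hw hu1 hw1
    have hu2 := hu.resolve_left hu1
    have hw2 := hw.resolve_left hw1
    refine ⟨ne_rung hp hij (s1 hu2) (s2 hw2), ?_⟩
    rw [hp.adj i j hij u (s1 hu2) w (s2 hw2)]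
    constructor
    · rintro (⟨e, _⟩ | e)
      · exact absurd (e ▸ hu2) n1
      · exact e
    · exact Or.inr
  · intro u hu w hw hu1 hw1
    have hu2 := hu.resolve_left hu1
    rcases hw.resolve_left hw1 with rfl | hw2
    · refine ⟨fun e => n1 (e ▸ hu2), ?_⟩
      constructor
      · intro e
        exact absurd e.symm (far u hu2)
      · rintro ⟨_, e⟩
        exact absurd e (hp.a_ne_b i k)
    · refine ⟨ne_rung hp hik (s1 hu2) hw2, ?_⟩
      rw [hp.adj i k hik u (s1 hu2) w hw2]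
      constructor
      · rintro (⟨e, _⟩ | e)
        · exact absurd (e ▸ hu2) n1
        · exact e
      · exact Or.inr
  · intro u hu w hw hu1 hw1
    have hu2 := hu.resolve_left hu1
    rcases hw.resolve_left hw1 with rfl | hw2
    · refine ⟨fun e => ne_rung hp hij (hp.a_mem i) (e ▸ s2 hu2) rfl, ?_⟩
      rw [G.adj_comm, hp.adj i j hij _ (hp.a_mem i) u (s2 hu2)]
      constructor
      · rintro (⟨_, e⟩ | ⟨e, _⟩)
        · exact absurd (e ▸ hu2) n2
        · exact absurd e (hp.a_ne_b i i)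
      · rintro ⟨_, e⟩
        exact absurd e (hp.a_ne_b i k)
    · refine ⟨ne_rung hp hjk (s2 hu2) hw2, ?_⟩
      rw [hp.adj j k hjk u (s2 hu2) w hw2]
      constructor
      · rintro (⟨e, _⟩ | e)
        · exact absurd (e ▸ hu2) n2
        · exact e
      · exact Or.inr

end

theorem third (i j : Fin 3) (h : i ≠ j) : ∃ k, i ≠ k ∧ j ≠ k ∧ ∀ r, r = i ∨ r = j ∨ r = k := by
  revert i j
  decide

/-- (VPR) -/
theorem pf_VPR (hPYR : T_PYR) : T_VPR := by
  intro V G a b n P v hG hN hp hv hb ⟨i, j, hij, hai, haj⟩ ⟨w, ⟨r, hw⟩, hvw, hwa⟩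
  obtain ⟨k, hik, hjk, all⟩ := third i j hij
  obtain ⟨d1, w1, S1, p1, s1, o1, v1, f1, c1⟩ := lastN (hp.ip i) (hb i) ⟨_, hp.a_mem i, hai⟩
  obtain ⟨d2, w2, S2, p2, s2, o2, v2, f2, c2⟩ := lastN (hp.ip j) (hb j) ⟨_, hp.a_mem j, haj⟩
  by_cases hk : ∃ u ∈ P k, G.Adj v u
  · exfalso
    obtain ⟨d3, w3, S3, p3, s3, o3, v3, f3, c3⟩ := lastN (hp.ip k) (hb k) hk
    rcases c1 with ⟨rfl, rfl⟩ | ⟨m1, _⟩
    · rcases c2 with ⟨rfl, rfl⟩ | ⟨m2, _⟩
      · rcases c3 with ⟨rfl, rfl⟩ | ⟨m3, _⟩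
        · rcases all r with rfl | rfl | rfl
          · exact hwa r ((f1 w hw).1 hvw)
          · exact hwa r ((f2 w hw).1 hvw)
          · exact hwa r ((f3 w hw).1 hvw)
        · exact two_full hN hp hv hij hik hjk f1 f2 p3 s3 m3 f3
      · rcases c3 with ⟨rfl, rfl⟩ | ⟨m3, _⟩
        · exact two_full hN hp hv hik hij hjk.symm f1 f3 p2 s2 m2 f2
        · exact pyr_v hPYR hG hp hv hij hik hjk p1 p2 p3 s1 s2 s3 o1 o2 o3 f1 f2 f3
            (fun h => m2 h.2) (fun h => m3 h.2) (fun h => m2 h.1)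
    · rcases c2 with ⟨rfl, rfl⟩ | ⟨m2, _⟩
      · rcases c3 with ⟨rfl, rfl⟩ | ⟨m3, _⟩
        · exact two_full hN hp hv hjk hij.symm hik.symm f2 f3 p1 s1 m1 f1
        · exact pyr_v hPYR hG hp hv hij hik hjk p1 p2 p3 s1 s2 s3 o1 o2 o3 f1 f2 f3
            (fun h => m1 h.1) (fun h => m1 h.1) (fun h => m3 h.2)
      · exact pyr_v hPYR hG hp hv hij hik hjk p1 p2 p3 s1 s2 s3 o1 o2 o3 f1 f2 f3
          (fun h => m1 h.1) (fun h => m1 h.1) (fun h => m2 h.1)
  · have fk : ∀ u ∈ P k, ¬ G.Adj v u := fun u hu e => hk ⟨u, hu, e⟩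
    rcases c1 with ⟨rfl, rfl⟩ | ⟨m1, c1⟩
    · exfalso
      rcases c2 with ⟨rfl, rfl⟩ | ⟨m2, _⟩
      · rcases all r with rfl | rfl | rfl
        · exact hwa r ((f1 w hw).1 hvw)
        · exact hwa r ((f2 w hw).1 hvw)
        · exact fk w hw hvw
      · exact pyr_a hPYR hG hp hv hij hik hjk f1 fk p2 s2 m2 f2
    · rcases c2 with ⟨rfl, rfl⟩ | ⟨m2, c2⟩
      · exact absurd (pyr_a hPYR hG hp hv hij.symm hjk hik f2 fk p1 s1 m1 f1) id
      rcases c1 with ⟨l1, r1, g1⟩ | far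
      · rcases c2 with ⟨l2, r2, g2⟩ | far
        · refine ⟨i, j, k, w1, w2, S1, S2, hij, hik, hjk, fk, hai, haj, g1, g2, ?_, r1, m1,
            by omega, ?_, r2, m2, by omega, f1, f2⟩
          · rw [← l1, Nat.add_sub_cancel]; exact p1
          · rw [← l2, Nat.add_sub_cancel]; exact p2
        · exact absurd (pyr_b hPYR hG hp hv hij.symm hjk hik haj fk p2 p1 s2 s1 o2 o1 f2 f1
            m2 m1 far) id
      · exact absurd (pyr_b hPYR hG hp hv hij hik hjk hai fk p1 p2 s1 s2 o1 o2 f1 f2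
          m1 m2 far) id

end Pool.Agent.H67.ER2
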